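import Pool.Agent.Helper45.SD.Goals

set_option autoImplicit false

open Finset

namespace Pool.Agent.Helper93.SD

open Pool.Agent.Helper45.SD

theorem dvd_all (n k : ℕ) (hE : Exact n k) :
    ∀ m : ℕ, 0 < m → m ∣ n → (n - 1) ∣ k * (m - 1) := by
  intro m
  induction m using Nat.strong_induction_on with
  | _ m ih =>
    intro hm0 hm
    rcases Nat.lt_or_ge m 2 with h2 | h2
    · have : m - 1 = 0 := by omega
      rw [this]; simp
    · have hp := Nat.minFac_prime (show m ≠ 1 by omega)
      obtain ⟨m', hm'⟩ := Nat.minFac_dvd m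
      have hp2 := hp.two_le
      have hm'0 : 0 < m' := by
        rcases Nat.eq_zero_or_pos m' with h | h
        · rw [h] at hm'; omega
        · exact h
      have hlt : m' < m := by
        calc m' < 2 * m' := by omega
          _ ≤ m.minFac * m' := Nat.mul_le_mul_right _ hp2
          _ = m := hm'.symm
      have h1 : (n - 1) ∣ k * (m' - 1) :=
        ih m' hlt hm'0 ((Dvd.intro_left _ hm'.symm).trans hm)
      have h3 : (n - 1) ∣ k * (m.minFac - 1) := hE _ hp ((Nat.minFac_dvd m).trans hm)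
      have h4 : k * (m - 1) = k * (m.minFac - 1) * m' + k * (m' - 1) := by
        obtain ⟨p', hp'⟩ : ∃ p', m.minFac = p' + 1 := ⟨m.minFac - 1, by omega⟩
        obtain ⟨q, hq⟩ : ∃ q, m' = q + 1 := ⟨m' - 1, by omega⟩
        have e1 : m - 1 = p' * (q + 1) + q := by
          have : m = (p' + 1) * (q + 1) := by rw [← hp', ← hq]; exact hm'
          rw [this]
          have : (p' + 1) * (q + 1) = p' * (q + 1) + q + 1 := by ring
          omega
        rw [e1, hp', hq]
        simp only [Nat.add_sub_cancel]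
        ring
      rw [h4]
      exact dvd_add (h3.mul_right _) h1

/-- the quotients `k (m - 1) / (n - 1)` -/
def hh (n k m : ℕ) : ℕ := k * (m - 1) / (n - 1)

theorem hh_mul (n k m : ℕ) (hE : Exact n k) (hm0 : 0 < m) (hm : m ∣ n) :
    hh n k m * (n - 1) = k * (m - 1) :=
  Nat.div_mul_cancel (dvd_all n k hE m hm0 hm)

theorem hh_lt (n k m : ℕ) (hn : 2 ≤ n) (hk : k + 2 ≤ n) (hE : Exact n k) (hm0 : 0 < m)
    (hm : m ∣ n) : hh n k m < m := by
  have h := hh_mul n k m hE hm0 hm
  by_contra hc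
  push_neg at hc
  have h1 : m * (n - 1) ≤ hh n k m * (n - 1) := Nat.mul_le_mul_right _ hc
  have h2 : k * (m - 1) ≤ (n - 1) * (m - 1) := Nat.mul_le_mul_right _ (by omega)
  have h3 : (n - 1) * (m - 1) < m * (n - 1) := by
    rw [mul_comm m]
    exact Nat.mul_lt_mul_of_pos_left (by omega) (by omega)
  omega

theorem hh_self (n k : ℕ) (hn : 2 ≤ n) : hh n k n = k := by
  unfold hh
  exact Nat.mul_div_cancel _ (by omega)

theorem hh_prime (n k p : ℕ) (hn : 2 ≤ n) (hk1 : 1 ≤ k) (hk : k + 2 ≤ n) (hE : Exact n k)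
    (hp : p.Prime) (hpn : p ∣ n) : 1 ≤ hh n k p ∧ hh n k p + 2 ≤ p := by
  have h := hh_mul n k p hE hp.pos hpn
  have hp2 := hp.two_le
  constructor
  · by_contra hc
    have : hh n k p = 0 := by omega
    rw [this, zero_mul] at h
    have : 0 < k * (p - 1) := Nat.mul_pos (by omega) (by omega)
    omega
  · by_contra hc
    have hc' : p - 1 ≤ hh n k p := by omega
    have h1 : (p - 1) * (n - 1) ≤ hh n k p * (n - 1) := Nat.mul_le_mul_right _ hc'
    have h2 : k * (p - 1) < (n - 1) * (p - 1) :=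
      Nat.mul_lt_mul_of_pos_right (by omega) (by omega)
    rw [mul_comm (p - 1)] at h1
    omega

theorem cnt (hC : G_CNT) (n k s u : ℕ) (hn : 2 ≤ n) (hk1 : 1 ≤ k) (hk : k + 2 ≤ n)
    (hE : Exact n k) (hs : s ∣ n) (hu : u ∣ s) (hu1 : 1 < u) :
    (n - 1) * Nu s u (hh n k s) = Nat.totient u * k := by
  have hs0 : 0 < s := Nat.pos_of_dvd_of_pos hs (by omega)
  have hp := Nat.minFac_prime (show u ≠ 1 by omega)
  set p := u.minFac with hpdef
  have hpu : p ∣ u := Nat.minFac_dvd u
  have hpn : p ∣ n := (hpu.trans hu).trans hs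
  obtain ⟨h1, h2⟩ := hh_prime n k p hn hk1 hk hE hp hpn
  have e1 := hh_mul n k p hE hp.pos hpn
  have e2 := hh_mul n k s hE hs0 hs
  have hp2 := hp.two_le
  have key : (p - 1) * hh n k s + hh n k p = s * hh n k p := by
    have : ((p - 1) * hh n k s + hh n k p) * (n - 1) = (s * hh n k p) * (n - 1) := by
      calc ((p - 1) * hh n k s + hh n k p) * (n - 1)
          = (p - 1) * (hh n k s * (n - 1)) + hh n k p * (n - 1) := by ring
        _ = (p - 1) * (k * (s - 1)) + k * (p - 1) := by rw [e1, e2]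
        _ = (p - 1) * k * (s - 1 + 1) := by ring
        _ = (p - 1) * k * s := by rw [Nat.sub_add_cancel hs0]
        _ = s * (k * (p - 1)) := by ring
        _ = s * (hh n k p * (n - 1)) := by rw [e1]
        _ = (s * hh n k p) * (n - 1) := by ring
    exact Nat.eq_of_mul_eq_mul_right (by omega) this
  have h3 := hC p s u (hh n k s) (hh n k p) (hh n k p) hp hpu hu hs0 h1 h2 key
  have h4 : (p - 1) * ((n - 1) * Nu s u (hh n k s)) = (p - 1) * (Nat.totient u * k) := by
    calc (p - 1) * ((n - 1) * Nu s u (hh n k s))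
        = ((p - 1) * Nu s u (hh n k s)) * (n - 1) := by ring
      _ = Nat.totient u * (hh n k p * (n - 1)) := by rw [h3]; ring
      _ = Nat.totient u * (k * (p - 1)) := by rw [e1]
      _ = (p - 1) * (Nat.totient u * k) := by ring
  exact Nat.eq_of_mul_eq_mul_left (by omega) h4

theorem Bs_lt (hB : G_BLK) (hC : G_CNT) (n k s u : ℕ) (hn : 2 ≤ n) (hk1 : 1 ≤ k)
    (hk : k + 2 ≤ n) (hE : Exact n k) (hs : s ∣ n) (hsn : s < n) (hu1 : 1 < u) :
    Bs n k s u = 0 := by
  by_cases hu : u ∣ s
  · have hs0 : 0 < s := Nat.pos_of_dvd_of_pos hs (by omega)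
    obtain ⟨t, ht⟩ := hs
    have hst : s ∣ n := ⟨t, ht⟩
    have ht0 : 0 < t := by
      rcases Nat.eq_zero_or_pos t with h | h
      · rw [h] at ht; omega
      · exact h
    have htn : t ∣ n := ⟨s, by rw [ht]; ring⟩
    have hdiv : n / s = t := by rw [ht]; exact Nat.mul_div_cancel_left t hs0
    have ht2 : 2 ≤ t := by
      by_contra hc
      have : t = 1 := by omega
      rw [this] at ht; omega
    have e1 := hh_mul n k s hE hs0 hst
    have e2 := hh_mul n k t hE ht0 htn
    have hlt := hh_lt n k s hn hk hE hs0 hst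
    have hkk : k = s * hh n k t + hh n k s := by
      have : k * (n - 1) = (s * hh n k t + hh n k s) * (n - 1) := by
        calc k * (n - 1) = k * (s * (t - 1) + (s - 1)) := by
              congr 1
              obtain ⟨a, rfl⟩ : ∃ a, t = a + 1 := ⟨t - 1, by omega⟩
              rw [ht]
              simp only [Nat.add_sub_cancel]
              have : s * (a + 1) = s * a + s := by ring
              omega
          _ = s * (k * (t - 1)) + k * (s - 1) := by ring
          _ = s * (hh n k t * (n - 1)) + hh n k s * (n - 1) := by rw [e1, e2]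
          _ = (s * hh n k t + hh n k s) * (n - 1) := by ring
      exact Nat.eq_of_mul_eq_mul_right (by omega) this
    have hmod : k % s = hh n k s := by
      conv_lhs => rw [hkk]
      rw [Nat.mul_add_mod]
      exact Nat.mod_eq_of_lt hlt
    have hdv : k / s = hh n k t := by
      conv_lhs => rw [hkk]
      rw [Nat.mul_add_div hs0, Nat.div_eq_of_lt hlt, add_zero]
    have h1 := (hB n k s u hst (by omega) hu (by omega)).1 hsn
    have h2 := cnt hC n k s u hn hk1 hk hE hst hu hu1
    rw [hdiv, hmod, hdv] at h1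
    have h3 : ((t : ℤ) - 1) * (Nu s u (hh n k s) : ℤ) - (hh n k t : ℤ) * (Nat.totient u : ℤ) = 0 := by
      have c1 : ((n : ℤ) - 1) * (Nu s u (hh n k s) : ℤ) = (Nat.totient u : ℤ) * k := by
        have := congrArg (Nat.cast : ℕ → ℤ) h2
        rw [Nat.cast_mul, Nat.cast_mul, Nat.cast_sub (by omega : 1 ≤ n)] at this
        exact_mod_cast this
      have c2 : (hh n k t : ℤ) * ((n : ℤ) - 1) = (k : ℤ) * ((t : ℤ) - 1) := by
        have := congrArg (Nat.cast : ℕ → ℤ) e2
        rw [Nat.cast_mul, Nat.cast_mul, Nat.cast_sub (by omega : 1 ≤ n),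
          Nat.cast_sub (by omega : 1 ≤ t)] at this
        exact_mod_cast this
      have hn1 : ((n : ℤ) - 1) ≠ 0 := by
        have : (2 : ℤ) ≤ n := by exact_mod_cast hn
        omega
      have : ((n : ℤ) - 1) * (((t : ℤ) - 1) * (Nu s u (hh n k s) : ℤ) -
          (hh n k t : ℤ) * (Nat.totient u : ℤ)) = 0 := by
        linear_combination ((t : ℤ) - 1) * c1 - (Nat.totient u : ℤ) * c2
      exact (mul_eq_zero.1 this).resolve_left hn1
    rw [h3, mul_zero] at h1
    have ht1 : ((t : ℤ) - 1) ≠ 0 := by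
      have : (2 : ℤ) ≤ t := by exact_mod_cast ht2
      omega
    exact (mul_eq_zero.1 h1).resolve_left ht1
  · unfold Bs
    apply Finset.sum_eq_zero
    intro j _
    rw [if_neg]
    intro h
    exact hu (h ▸ Nat.div_dvd_of_dvd (Nat.gcd_dvd_left s j))

/-- the integer valued dual function -/
noncomputable def W (n : ℕ) [NeZero n] (k : ℕ) (l : ZMod n) : ℤ :=
  ∑ a : ZMod n, ∑ j ∈ Finset.Icc 1 k,
    if a * (j : ZMod n) + l = 0 then ep (n / addOrderOf a) ((k - j) / addOrderOf a) else 0

theorem Gd_eq (hEV : G_EV) (n : ℕ) [NeZero n] (k : ℕ) (l : ZMod n) :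
    Gd n k 0 l = (-1) ^ (k - 1) * ((W n k l : ℤ) : ℂ) := by
  unfold Gd W
  push_cast
  rw [Finset.mul_sum]
  apply Finset.sum_congr rfl
  intro a _
  have h0 : psi n (-(a * 0)) = 1 := by
    unfold psi
    simp
  rw [h0, one_mul, Finset.mul_sum]
  apply Finset.sum_congr rfl
  intro j hj
  rw [Finset.mem_Icc] at hj
  split_ifs with h
  · rw [hEV, ← mul_assoc, ← pow_add]
    congr 2
    omega
  · simp

theorem addOrderOf_unit_mul (n : ℕ) [NeZero n] (e : ZMod n) (he : IsUnit e) (a : ZMod n) :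
    addOrderOf (e * a) = addOrderOf a := by
  have := addOrderOf_injective (AddMonoidHom.mulLeft e) (by
    intro x y hxy
    exact he.mul_left_cancel hxy) a
  exact this

theorem W_unit (n : ℕ) [NeZero n] (k : ℕ) (e : ZMod n) (he : IsUnit e) (l : ZMod n) :
    W n k (e * l) = W n k l := by
  obtain ⟨v, rfl⟩ := he
  unfold W
  rw [← Equiv.sum_comp (Units.mulLeft v)]
  apply Finset.sum_congr rfl
  intro a _
  apply Finset.sum_congr rfl
  intro j _
  rw [Units.mulLeft_apply, addOrderOf_unit_mul n _ v.isUnit]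
  have : (v : ZMod n) * a * (j : ZMod n) + v * l = 0 ↔ a * (j : ZMod n) + l = 0 := by
    rw [show (v : ZMod n) * a * (j : ZMod n) + v * l = v * (a * (j : ZMod n) + l) by ring]
    exact Units.mul_right_eq_zero v
  simp only [this]

theorem exists_unit (n : ℕ) [NeZero n] (l l' : ZMod n) (h : addOrderOf l = addOrderOf l') :
    ∃ e : ZMod n, IsUnit e ∧ l' = e * l := by
  obtain ⟨d, hd, u, hu, rfl⟩ := l.eq_unit_mul_divisor
  obtain ⟨d', hd', u', hu', rfl⟩ := l'.eq_unit_mul_divisor
  rw [addOrderOf_unit_mul n _ hu, addOrderOf_unit_mul n _ hu',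
    ZMod.addOrderOf_coe d (NeZero.ne n), ZMod.addOrderOf_coe d' (NeZero.ne n),
    Nat.gcd_eq_right hd, Nat.gcd_eq_right hd'] at h
  have hn : n ≠ 0 := NeZero.ne n
  have hdd : d = d' := by
    have h1 := Nat.mul_div_cancel' hd
    have h2 := Nat.mul_div_cancel' hd'
    rw [← h] at h2
    have h3 : 0 < n / d := Nat.div_pos (Nat.le_of_dvd (Nat.pos_of_ne_zero hn) hd)
      (Nat.pos_of_dvd_of_pos hd (Nat.pos_of_ne_zero hn))
    exact Nat.eq_of_mul_eq_mul_right h3 (h1.trans h2.symm)
  subst hdd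
  obtain ⟨v, rfl⟩ := hu
  refine ⟨u' * ((v⁻¹ : (ZMod n)ˣ) : ZMod n), hu'.mul (Units.isUnit _), ?_⟩
  rw [mul_assoc, ← mul_assoc ((v⁻¹ : (ZMod n)ˣ) : ZMod n), Units.inv_mul, one_mul]

theorem sum_W (hB : G_BLK) (hC : G_CNT) (n : ℕ) [NeZero n] (k u : ℕ) (hn : 2 ≤ n) (hk1 : 1 ≤ k)
    (hk : k + 2 ≤ n) (hE : Exact n k) (hu : u ∣ n) (hu1 : 1 < u) :
    ∑ l ∈ (Finset.univ : Finset (ZMod n)).filter (fun l => addOrderOf l = u), W n k l =
      (Nat.totient n : ℤ) * (Nu n u k : ℤ) := by
  classical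
  unfold W
  rw [Finset.sum_comm]
  have h1 : ∀ a : ZMod n, ∑ l ∈ (Finset.univ : Finset (ZMod n)).filter (fun l => addOrderOf l = u),
      ∑ j ∈ Finset.Icc 1 k,
        (if a * (j : ZMod n) + l = 0 then ep (n / addOrderOf a) ((k - j) / addOrderOf a) else 0) =
      Bs n k (addOrderOf a) u := by
    intro a
    rw [Finset.sum_comm]
    unfold Bs
    apply Finset.sum_congr rfl
    intro j _
    have horder : addOrderOf (-(a * (j : ZMod n))) =
        addOrderOf a / Nat.gcd (addOrderOf a) j := by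
      rw [addOrderOf_neg, mul_comm, ← nsmul_eq_mul, addOrderOf_nsmul]
    by_cases hcase : addOrderOf a / Nat.gcd (addOrderOf a) j = u
    · rw [if_pos hcase]
      rw [Finset.sum_eq_single (-(a * (j : ZMod n)))]
      · rw [if_pos (by ring)]
      · intro b _ hb
        rw [if_neg]
        intro h
        exact hb (by rw [eq_neg_iff_add_eq_zero, add_comm]; exact h)
      · intro hb
        exact absurd (Finset.mem_filter.2 ⟨Finset.mem_univ _, by rw [horder]; exact hcase⟩) hb
    · rw [if_neg hcase]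
      apply Finset.sum_eq_zero
      intro b hb
      rw [if_neg]
      intro h
      have : b = -(a * (j : ZMod n)) := by rw [eq_neg_iff_add_eq_zero, add_comm]; exact h
      rw [Finset.mem_filter] at hb
      rw [this, horder] at hb
      exact hcase hb.2
  rw [Finset.sum_congr rfl (fun a _ => h1 a)]
  have hcard : Fintype.card (ZMod n) = n := ZMod.card n
  have h2 : ∑ a : ZMod n, Bs n k (addOrderOf a) u =
      ∑ a ∈ (Finset.univ : Finset (ZMod n)).filter (fun a => addOrderOf a = n),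
        Bs n k n u := by
    rw [Finset.sum_filter]
    apply Finset.sum_congr rfl
    intro a _
    split_ifs with h
    · rw [h]
    · have hd : addOrderOf a ∣ n := by
        have := addOrderOf_dvd_card (x := a)
        rwa [hcard] at this
      exact Bs_lt hB hC n k _ u hn hk1 hk hE hd
        (lt_of_le_of_ne (Nat.le_of_dvd (by omega) hd) h) hu1
  rw [h2, Finset.sum_const, (hB n k n u dvd_rfl (by omega) hu (by omega)).2]
  have h3 : ((Finset.univ : Finset (ZMod n)).filter (fun a => addOrderOf a = n)).card =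
      Nat.totient n := IsAddCyclic.card_addOrderOf_eq_totient (by rw [hcard])
  rw [h3, nsmul_eq_mul]

theorem W_val (hB : G_BLK) (hC : G_CNT) (n : ℕ) [NeZero n] (k : ℕ) (hn : 2 ≤ n) (hk1 : 1 ≤ k)
    (hk : k + 2 ≤ n) (hE : Exact n k) (l : ZMod n) (hl : l ≠ 0) :
    ((n : ℤ) - 1) * W n k l = (Nat.totient n : ℤ) * k := by
  have hcard : Fintype.card (ZMod n) = n := ZMod.card n
  set u := addOrderOf l with hu
  have hun : u ∣ n := by
    have := addOrderOf_dvd_card (x := l)
    rwa [hcard] at this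
  have hu1 : 1 < u := by
    have h0 : 0 < u := addOrderOf_pos l
    have h1 : u ≠ 1 := by
      intro h
      exact hl (AddMonoid.addOrderOf_eq_one_iff.1 (hu ▸ h))
    omega
  have h1 := sum_W hB hC n k u hn hk1 hk hE hun hu1
  have h2 : ∑ l' ∈ (Finset.univ : Finset (ZMod n)).filter (fun l' => addOrderOf l' = u),
      W n k l' = (Nat.totient u : ℤ) * W n k l := by
    rw [Finset.sum_congr rfl (g := fun _ => W n k l), Finset.sum_const,
      IsAddCyclic.card_addOrderOf_eq_totient (by rw [hcard]; exact hun), nsmul_eq_mul]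
    intro l' hl'
    rw [Finset.mem_filter] at hl'
    obtain ⟨e, he, rfl⟩ := exists_unit n l l' (by rw [hl'.2])
    exact W_unit n k e he l
  have h3 := cnt hC n k n u hn hk1 hk hE dvd_rfl hun hu1
  rw [hh_self n k hn] at h3
  have c1 : ((n : ℤ) - 1) * (Nu n u k : ℤ) = (Nat.totient u : ℤ) * k := by
    have := congrArg (Nat.cast : ℕ → ℤ) h3
    rw [Nat.cast_mul, Nat.cast_mul, Nat.cast_sub (by omega : 1 ≤ n)] at this
    exact_mod_cast this
  have hphi : (Nat.totient u : ℤ) ≠ 0 := by
    have := Nat.totient_pos.2 (by omega : 0 < u)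
    omega
  rw [h2] at h1
  apply mul_left_cancel₀ hphi
  linear_combination ((n : ℤ) - 1) * h1 + (Nat.totient n : ℤ) * c1

theorem suf2 (hID : G_ID) (hEV : G_EV) (hINV : G_INV) (hBLK : G_BLK) (hCNT : G_CNT) :
    G_SUF2 := by
  intro n _ k hn hk1 hk hE
  obtain ⟨C0, hC0⟩ := hID n k 0
  have hn0 : (n : ℂ) ≠ 0 := by
    have : n ≠ 0 := by omega
    exact_mod_cast this
  have h1 : (1 : ZMod n) ≠ 0 := by
    haveI : Fact (1 < n) := ⟨by omega⟩
    exact one_ne_zero
  apply hINV n k 0 ((n : ℂ)⁻¹ * ((n : ℂ) * Gd n k 0 1 - C0))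
  intro l hl
  have hW : W n k l = W n k 1 := by
    have a1 := W_val hBLK hCNT n k hn hk1 hk hE l hl
    have a2 := W_val hBLK hCNT n k hn hk1 hk hE 1 h1
    have hn1 : ((n : ℤ) - 1) ≠ 0 := by
      have : (2 : ℤ) ≤ n := by exact_mod_cast hn
      omega
    exact mul_left_cancel₀ hn1 (a1.trans a2.symm)
  have hG : Gd n k 0 l = Gd n k 0 1 := by
    rw [Gd_eq hEV, Gd_eq hEV, hW]
  rw [← hG, ← hC0 l hl, ← mul_assoc, inv_mul_cancel₀ hn0, one_mul]

end Pool.Agent.Helper93.SD
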