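import Pool.Agent.Helper71.SD.Goals

/-!
Packet FREEQ: the part of a grid map away from the poles is free.
-/

namespace Pool.Agent.Helper71.SD.FREEQ

open Pool.Agent.Helper71.AHtpy SimpleGraph

/-- the affine map -/
def aff' (z : Fin 60 → ℤ) (π : Equiv.Perm (Fin 60)) (s : Fin 60 → ℤ) (S : Finset E) :
    Fin 60 → ℤ := fun i => z i + if π i ∈ S then s i else 0

theorem aff'_near (z : Fin 60 → ℤ) (π : Equiv.Perm (Fin 60)) (s : Fin 60 → ℤ)
    (hs : ∀ i, s i = 1 ∨ s i = -1) (S : Finset E) (a : E) :
    Near (grid (Fin 60)) (aff' z π s S) (aff' z π s (tog a S)) := by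
  apply near_grid_of (π.symm a)
  · unfold aff'
    rw [Equiv.apply_symm_apply]
    have h := hs (π.symm a)
    rw [abs_le]
    by_cases ha : a ∈ S
    · have ha' : a ∉ tog a S := by
        rw [mem_tog]
        tauto
      rw [if_pos ha, if_neg ha']
      omega
    · have ha' : a ∈ tog a S := by
        rw [mem_tog]
        tauto
      rw [if_neg ha, if_pos ha']
      omega
  · intro j hj
    have hja : π j ≠ a := by
      intro h
      apply hj
      rw [← h, Equiv.symm_apply_apply]
    have : π j ∈ tog a S ↔ π j ∈ S := by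
      rw [mem_tog]
      tauto
    unfold aff'
    simp only [this]

theorem freeq : S_EMB → S_COR6 → S_CONN → S_XC1 → S_FREEQ := by
  intro hemb hcor hconn _ V G A n f hf
  rintro ⟨q, hq1, hq2⟩
  have hlab : ∀ S, Core S → lab (f (q S).1) = A.b (.mid S) := hq1
  have hlev : ∀ S, 4 ≤ lev (f (q S).1) ∧ lev (f (q S).1) + 4 ≤ n := fun S => (q S).2
  have hmid : ∀ S T, A.b (.mid S) = A.b (.mid T) → S = T := by
    intro S T h
    have h1 := A.b_inj h
    injection h1
  obtain ⟨z, π, s, hs, hform⟩ := hemb (fun S => (q S).1)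
    (fun S T hS hT h => hmid S T (by
      rw [← hlab S hS, ← hlab T hT]
      exact congrArg (fun x => lab (f x)) h))
    (fun S T hS hT h => by
      rcases hq2 S T hS hT h with h1 | h1
      · exact Or.inl (congrArg Subtype.val h1)
      · exact Or.inr h1)
  set σ : Finset E → Quotient (suspSetoid V n) := fun S => f (aff' z π s S) with hσ
  have hσq : ∀ S, Core S → σ S = f (q S).1 := by
    intro S hS
    have h1 : (q S).1 = aff' z π s S := hform S hS
    show f (aff' z π s S) = f (q S).1
    rw [h1]
  have hσm : IsGraphMap (cube E) (Susp G n) σ := by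
    rintro S T ⟨a, rfl⟩
    exact hf.near (aff'_near z π s hs S a)
  obtain ⟨S₀, -, hS₀⟩ := Finset.exists_subset_card_eq
    (s := (Finset.univ : Finset E)) (n := 30) (by simp)
  have hpt : ∀ S, Core S → σ S = pt n (A.b (.mid S)) (lev (σ S)) := by
    intro S hS
    have h1 := pt_lab_lev (σ S)
    rw [hσq S hS, hlab S hS] at h1
    rw [hσq S hS]
    exact h1.symm
  have hl : ∀ S, Core S → 4 ≤ lev (σ S) ∧ lev (σ S) + 4 ≤ n := by
    intro S hS
    rw [hσq S hS]
    exact hlev S
  have hconst : ∀ S, Bd 2 S → lev (σ S) = lev (σ S₀) := by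
    intro S hS
    refine hconn 2 (fun R => lev (σ R) = lev (σ S₀)) (by norm_num) (by norm_num) ?_ S₀ S
      (by unfold Bd; omega) hS rfl
    intro R a hR hR' hP
    have c1 : Core R := by
      obtain ⟨h1, h2⟩ := hR
      unfold Core
      omega
    have c2 : Core (tog a R) := by
      obtain ⟨h1, h2⟩ := hR'
      unfold Core
      omega
    have h1 : Near (Susp G n) (σ R) (σ (tog a R)) := hσm R (tog a R) ⟨a, rfl⟩
    rw [hpt R c1, hpt _ c2, near_pt_iff (by have := hl R c1; omega)
      (by have := hl _ c2; omega)] at h1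
    have l1 := hl R c1
    have l2 := hl _ c2
    rcases h1.2 with h | h | h | h | h | h
    · omega
    · omega
    · omega
    · omega
    · exact absurd (hmid _ _ h).symm (tog_ne a R)
    · rw [← h.1]
      exact hP
  have hbased : Based A n (lev (σ S₀)) σ := by
    intro S hS
    have c1 : Core S := by unfold Core; omega
    have h1 := hpt S c1
    rw [hconst S (by unfold Bd; omega)] at h1
    exact h1
  have c0 := hl S₀ (by unfold Core; omega)
  exact hcor V G A n (lev (σ S₀)) σ hσm hbased c0.1 c0.2

end Pool.Agent.Helper71.SD.FREEQ
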