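import Pool.Agent.Helper71.SD.Goals

/-!
Packet EMB: an embedded copy of the core of the 60-cube in the grid is a piece of a unit cube.
-/

namespace Pool.Agent.Helper71.SD.EMB

open Pool.Agent.Helper71.AHtpy SimpleGraph

/-- a step in the grid is a signed unit vector -/
theorem step {x y : Fin 60 → ℤ} (h : (grid (Fin 60)).Adj x y) :
    ∃ (i : Fin 60) (c : ℤ), (c = 1 ∨ c = -1) ∧ y = x + Pi.single i c := by
  obtain ⟨i, hi, hj⟩ := grid_adj_iff.mp h
  refine ⟨i, y i - x i, by omega, ?_⟩
  funext j
  rw [Pi.add_apply, Pi.single_apply]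
  split_ifs with hji
  · subst hji
    ring
  · rw [hj j hji]
    ring

/-- opposite edges of a square are parallel -/
theorem square {p0 p1 p2 p3 : Fin 60 → ℤ} (h01 : (grid (Fin 60)).Adj p0 p1)
    (h12 : (grid (Fin 60)).Adj p1 p2) (h23 : (grid (Fin 60)).Adj p2 p3)
    (h30 : (grid (Fin 60)).Adj p3 p0) (h02 : p0 ≠ p2) (h13 : p1 ≠ p3) : p1 - p0 = p2 - p3 := by
  obtain ⟨i1, c1, hc1, e1⟩ := step h01
  obtain ⟨i2, c2, hc2, e2⟩ := step h12
  obtain ⟨i3, c3, hc3, e3⟩ := step h23
  obtain ⟨i4, c4, hc4, e4⟩ := step h30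
  have hsum : ∀ j, (Pi.single i1 c1 : Fin 60 → ℤ) j + (Pi.single i2 c2 : Fin 60 → ℤ) j
      + (Pi.single i3 c3 : Fin 60 → ℤ) j + (Pi.single i4 c4 : Fin 60 → ℤ) j = 0 := by
    intro j
    have h1 := congrFun e1 j
    have h2 := congrFun e2 j
    have h3 := congrFun e3 j
    have h4 := congrFun e4 j
    rw [Pi.add_apply] at h1 h2 h3 h4
    linarith
  have hne1 : ¬ (i1 = i2 ∧ c2 = -c1) := by
    rintro ⟨rfl, rfl⟩
    apply h02
    rw [e2, e1]
    funext j
    simp only [Pi.add_apply, Pi.single_apply]
    split_ifs <;> ring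
  have hne2 : ¬ (i1 = i4 ∧ c4 = -c1) := by
    rintro ⟨rfl, rfl⟩
    apply h13
    rw [e1]
    funext j
    have h4 := congrFun e4 j
    simp only [Pi.add_apply, Pi.single_apply] at h4 ⊢
    split_ifs at h4 ⊢ <;> linarith
  have h1 := hsum i1
  simp only [Pi.single_apply] at h1
  have key : i1 = i3 ∧ c3 = -c1 := by
    by_cases a2 : i1 = i2 <;> by_cases a3 : i1 = i3 <;> by_cases a4 : i1 = i4 <;>
      simp only [a2, a3, a4, if_true, if_false, true_and, false_and, not_false_eq_true] at h1 hne1 hne2 ⊢ <;>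
      omega
  obtain ⟨rfl, rfl⟩ := key
  rw [e3, e1]
  funext j
  simp only [Pi.sub_apply, Pi.add_apply, Pi.single_apply]
  split_ifs <;> ring

theorem tog_card_notMem {S : Finset E} {a : E} (h : a ∉ S) : (tog a S).card = S.card + 1 := by
  have : tog a S = insert a S := by
    ext i
    rw [mem_tog, Finset.mem_insert]
    constructor
    · rintro (⟨h1, -⟩ | ⟨h1, -⟩)
      · exact Or.inr h1
      · exact Or.inl h1
    · rintro (rfl | h1)
      · exact Or.inr ⟨rfl, h⟩
      · by_cases hia : i = a
        · subst hia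
          exact Or.inr ⟨rfl, h⟩
        · exact Or.inl ⟨h1, hia⟩
  rw [this, Finset.card_insert_of_notMem h]

theorem tog_eq_insert {S : Finset E} {a : E} (h : a ∉ S) : tog a S = insert a S := by
  ext i
  rw [mem_tog, Finset.mem_insert]
  constructor
  · rintro (⟨h1, -⟩ | ⟨h1, -⟩)
    · exact Or.inr h1
    · exact Or.inl h1
  · rintro (rfl | h1)
    · exact Or.inr ⟨rfl, h⟩
    · by_cases hia : i = a
      · subst hia
        exact Or.inr ⟨rfl, h⟩
      · exact Or.inl ⟨h1, hia⟩

theorem notMem_tog_self {S : Finset E} {a : E} (h : a ∈ S) : a ∉ tog a S := by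
  rw [mem_tog]
  tauto

theorem tog_comm (a b : E) (S : Finset E) : tog a (tog b S) = tog b (tog a S) := by
  unfold tog
  rw [symmDiff_assoc, symmDiff_comm ({b} : Finset E) {a}, ← symmDiff_assoc]

theorem notMem_tog {S : Finset E} {a b : E} (hab : a ≠ b) (h : a ∉ S) : a ∉ tog b S := by
  rw [mem_tog]
  tauto

theorem tog_tog_ne {S : Finset E} {a b : E} (hab : a ≠ b) : tog a (tog b S) ≠ S := by
  intro h
  have h1 : tog b S = tog a S := by
    rw [← h, tog_tog, h]
  have := Finset.ext_iff.mp h1 a
  rw [mem_tog, mem_tog] at this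
  tauto

theorem tog_ne_tog {S : Finset E} {a b : E} (hab : a ≠ b) : tog a S ≠ tog b S := by
  intro h1
  have := Finset.ext_iff.mp h1 a
  rw [mem_tog, mem_tog] at this
  tauto

section main

variable (q : Finset E → (Fin 60 → ℤ)) (hinj : ∀ S T, Core S → Core T → q S = q T → S = T)
  (hnear : ∀ S T, Core S → Core T → (cube E).Adj S T → Near (grid (Fin 60)) (q S) (q T))

include hinj hnear

theorem adj_q {S : Finset E} (a : E) (h1 : Core S) (h2 : Core (tog a S)) :
    (grid (Fin 60)).Adj (q S) (q (tog a S)) := by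
  rcases hnear S (tog a S) h1 h2 ⟨a, rfl⟩ with h | h
  · exact absurd (hinj _ _ h1 h2 h).symm (tog_ne a S)
  · exact h

theorem d_step {T : Finset E} {a b : E} (hab : a ≠ b) (ha : a ∉ T) (h1 : 28 ≤ T.card)
    (h2 : T.card ≤ 31) (h3 : 28 ≤ (tog b T).card) (h4 : (tog b T).card ≤ 31) :
    q (tog a T) - q T = q (tog a (tog b T)) - q (tog b T) := by
  have c1 : Core T := ⟨h1, by omega⟩
  have c2 : Core (tog a T) := by
    unfold Core
    rw [tog_card_notMem ha]
    omega
  have c3 : Core (tog b T) := ⟨h3, by omega⟩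
  have c4 : Core (tog a (tog b T)) := by
    unfold Core
    rw [tog_card_notMem (notMem_tog hab ha)]
    omega
  have c4' : Core (tog b (tog a T)) := by
    rw [tog_comm]
    exact c4
  have a1 := adj_q q hinj hnear a c1 c2
  have a2 := adj_q q hinj hnear b c2 c4'
  have a3 := adj_q q hinj hnear a c3 c4
  have a4 := adj_q q hinj hnear b c1 c3
  rw [tog_comm b a T] at a2
  refine square a1 a2 a3.symm a4.symm ?_ ?_
  · intro h
    exact tog_tog_ne hab (hinj _ _ c1 c4 h).symm
  · intro h
    exact tog_ne_tog hab (hinj _ _ c2 c3 h)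

theorem d_const (hconn : S_CONN) (a : E) {T T' : Finset E} (ha : a ∉ T) (ha' : a ∉ T')
    (h1 : 28 ≤ T.card) (h2 : T.card ≤ 31) (h3 : 28 ≤ T'.card) (h4 : T'.card ≤ 31) :
    q (tog a T) - q T = q (tog a T') - q T' := by
  -- the predicate on the band of width 1
  have key : ∀ S S' : Finset E, Bd 1 S → Bd 1 S' →
      q (tog a (S.erase a)) - q (S.erase a) = q (tog a (S'.erase a)) - q (S'.erase a) := by
    intro S S' hS hS'
    refine hconn 1 (fun R => q (tog a (S.erase a)) - q (S.erase a)
      = q (tog a (R.erase a)) - q (R.erase a)) le_rfl (by norm_num) ?_ S S' hS hS' rfl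
    intro R b hR hR' hP
    rw [hP]
    by_cases hab : b = a
    · subst hab
      have : (tog b R).erase b = R.erase b := by
        ext i
        rw [Finset.mem_erase, Finset.mem_erase, mem_tog]
        tauto
      rw [this]
    · have e : (tog b R).erase a = tog b (R.erase a) := by
        ext i
        rw [Finset.mem_erase, mem_tog, mem_tog, Finset.mem_erase]
        constructor
        · rintro ⟨h5, ⟨h6, h7⟩ | ⟨h6, h7⟩⟩
          · exact Or.inl ⟨⟨h5, h6⟩, h7⟩
          · exact Or.inr ⟨h6, fun h8 => h7 h8.2⟩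
        · rintro (⟨⟨h5, h6⟩, h7⟩ | ⟨h6, h7⟩)
          · exact ⟨h5, Or.inl ⟨h6, h7⟩⟩
          · subst h6
            exact ⟨hab, Or.inr ⟨rfl, fun h8 => h7 ⟨hab, h8⟩⟩⟩
      have b1 : 28 ≤ (R.erase a).card ∧ (R.erase a).card ≤ 31 := by
        obtain ⟨h5, h6⟩ := hR
        by_cases haR : a ∈ R
        · rw [Finset.card_erase_of_mem haR]
          omega
        · rw [Finset.erase_eq_of_notMem haR]
          omega
      have b2 : 28 ≤ ((tog b R).erase a).card ∧ ((tog b R).erase a).card ≤ 31 := by
        obtain ⟨h5, h6⟩ := hR'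
        by_cases haR : a ∈ tog b R
        · rw [Finset.card_erase_of_mem haR]
          omega
        · rw [Finset.erase_eq_of_notMem haR]
          omega
      rw [e] at b2 ⊢
      exact d_step q hinj hnear (Ne.symm hab) (Finset.notMem_erase a R) b1.1 b1.2 b2.1 b2.2
  -- every admissible set is an erasure
  have hex : ∀ U : Finset E, a ∉ U → 28 ≤ U.card → U.card ≤ 31 →
      ∃ S, Bd 1 S ∧ S.erase a = U := by
    intro U hU h5 h6
    by_cases h7 : U.card = 28
    · refine ⟨insert a U, ?_, Finset.erase_insert hU⟩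
      unfold Bd
      rw [Finset.card_insert_of_notMem hU]
      omega
    · refine ⟨U, ?_, Finset.erase_eq_of_notMem hU⟩
      unfold Bd
      omega
  obtain ⟨S, hS, rfl⟩ := hex T ha h1 h2
  obtain ⟨S', hS', rfl⟩ := hex T' ha' h3 h4
  exact key S S' hS hS'

end main

theorem exists_card (m : ℕ) (X : Finset E) (h : m ≤ (Finset.univ \ X).card) :
    ∃ T : Finset E, T.card = m ∧ Disjoint T X := by
  obtain ⟨T, hT, hc⟩ := Finset.exists_subset_card_eq h
  exact ⟨T, hc, Finset.disjoint_of_subset_left hT Finset.sdiff_disjoint⟩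

theorem emb : S_CONN → S_EMB := by
  intro hconn q hinj hnear
  -- the directions
  have hdir : ∀ a : E, ∃ (i : Fin 60) (c : ℤ), (c = 1 ∨ c = -1) ∧
      ∀ T : Finset E, a ∉ T → 28 ≤ T.card → T.card ≤ 31 → q (tog a T) = q T + Pi.single i c := by
    intro a
    obtain ⟨T₀, hc, hd⟩ := exists_card 30 {a} (by
      rw [Finset.card_sdiff_of_subset (Finset.subset_univ _)]
      simp)
    have ha : a ∉ T₀ := Finset.disjoint_singleton_right.mp hd
    have c1 : Core T₀ := by unfold Core; omega
    have c2 : Core (tog a T₀) := by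
      unfold Core
      rw [tog_card_notMem ha]
      omega
    obtain ⟨i, c, hc1, e⟩ := step (adj_q q hinj hnear a c1 c2)
    refine ⟨i, c, hc1, ?_⟩
    intro T hT h1 h2
    have h3 := d_const q hinj hnear hconn a hT ha h1 h2 (by omega) (by omega)
    rw [e] at h3
    have h4 : q (tog a T) = q T + (q T₀ + Pi.single i c - q T₀) := by
      rw [← h3]
      abel
    rw [h4]
    abel
  choose κ c hc hq using hdir
  have hκ : Function.Injective κ := by
    intro a b hab
    by_contra hne
    obtain ⟨T, hT, hd⟩ := exists_card 28 {a, b} (by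
      rw [Finset.card_sdiff_of_subset (Finset.subset_univ _)]
      have : ({a, b} : Finset E).card ≤ 2 := Finset.card_le_two
      simp
      omega)
    have ha : a ∉ T := fun h => Finset.disjoint_left.mp hd h (by simp)
    have hb : b ∉ T := fun h => Finset.disjoint_left.mp hd h (by simp)
    have e1 := hq a T ha (by omega) (by omega)
    have e2 := hq b T hb (by omega) (by omega)
    have hb' : b ∉ tog a T := notMem_tog (Ne.symm hne) hb
    have hcard : (tog a T).card = 29 := by rw [tog_card_notMem ha, hT]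
    have e3 := hq b (tog a T) hb' (by omega) (by omega)
    have c0 : Core T := by unfold Core; omega
    have c1 : Core (tog a T) := by unfold Core; omega
    have c2 : Core (tog b T) := by
      unfold Core
      rw [tog_card_notMem hb]
      omega
    have c3 : Core (tog b (tog a T)) := by
      unfold Core
      rw [tog_card_notMem hb']
      omega
    have hcc : c a = c b ∨ c a = - c b := by
      rcases hc a with h | h <;> rcases hc b with h' | h' <;> rw [h, h'] <;> norm_num
    rcases hcc with h | h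
    · apply tog_ne_tog hne (hinj _ _ c1 c2 _)
      rw [e1, e2, hab, h]
    · apply tog_tog_ne (Ne.symm hne) (hinj _ _ c3 c0 _)
      rw [e3, e1, hab, h]
      funext j
      simp only [Pi.add_apply, Pi.single_apply]
      split_ifs <;> ring
  have hbij : Function.Bijective κ := Finite.injective_iff_bijective.mp hκ
  set κe : E ≃ Fin 60 := Equiv.ofBijective κ hbij with hκe
  have hκe' : ∀ a, κe a = κ a := fun a => rfl
  obtain ⟨S₀, hS₀, -⟩ := exists_card 30 ∅ (by simp)
  set z : Fin 60 → ℤ := q S₀ - ∑ a ∈ S₀, Pi.single (κ a) (c a) with hz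
  have hform : ∀ S : Finset E, Bd 2 S → q S = z + ∑ a ∈ S, Pi.single (κ a) (c a) := by
    intro S hS
    refine hconn 2 (fun S => q S = z + ∑ a ∈ S, Pi.single (κ a) (c a)) (by norm_num)
      (by norm_num) ?_ S₀ S (by unfold Bd; omega) hS ?_
    · intro R a hR hR' hP
      have hstep : ∀ T : Finset E, a ∉ T → ∑ x ∈ tog a T, (Pi.single (κ x) (c x) : Fin 60 → ℤ)
          = Pi.single (κ a) (c a) + ∑ x ∈ T, Pi.single (κ x) (c x) := by
        intro T hT
        rw [tog_eq_insert hT, Finset.sum_insert hT]
      obtain ⟨h1, h2⟩ := hR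
      obtain ⟨h3, h4⟩ := hR'
      by_cases ha : a ∈ R
      · have ha' := notMem_tog_self ha
        have e1 := hq a (tog a R) ha' (by omega) (by
          have := tog_card_notMem ha'
          rw [tog_tog] at this
          omega)
        have e2 := hstep (tog a R) ha'
        rw [tog_tog] at e1 e2
        have e3 : q (tog a R) = q R - Pi.single (κ a) (c a) := by
          rw [e1]
          abel
        rw [e3, hP, e2]
        abel
      · have e1 := hq a R ha (by omega) (by
          have := tog_card_notMem ha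
          omega)
        rw [e1, hP, hstep R ha]
        abel
    · show q S₀ = z + _
      rw [hz]
      abel
  refine ⟨z, κe.symm, fun i => c (κe.symm i), fun i => hc _, ?_⟩
  intro S hS
  have hB : Bd 2 S := by
    obtain ⟨h1, h2⟩ := hS
    unfold Bd
    omega
  rw [hform S hB]
  funext i
  rw [Pi.add_apply, Finset.sum_apply]
  congr 1
  have h1 : ∀ a ∈ S, (Pi.single (κ a) (c a) : Fin 60 → ℤ) i
      = if a = κe.symm i then c a else 0 := by
    intro a _
    rw [Pi.single_apply]
    have : (i = κ a) ↔ (a = κe.symm i) := by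
      rw [Equiv.eq_symm_apply, hκe']
      exact eq_comm
    simp only [this]
  rw [Finset.sum_congr rfl h1, Finset.sum_ite_eq']

end Pool.Agent.Helper71.SD.EMB
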